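import Pool.Agent.Lib_helper63.OW.P1
import Pool.Agent.Lib_helper92.OW.Cs
import Pool.Agent.Lib_helper92.O3.B.Bc

/-!
# c4 and c4': few twins

`count_pair`: the excess of the union of a pair set and a `K`-clique.
-/

set_option autoImplicit false
set_option linter.unusedSectionVars false
set_option linter.unusedVariables false

open scoped Classical
open Finset
open Pool.Agent.O2 (PC Cb CrOn pr ms dg nd)
open Pool.Agent.O3 (con hit Clq)

namespace Pool.Agent.OW

variable {V : Type} {K : ℕ} {G : SimpleGraph V} {S : Finset V}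

theorem c4_pr_clq {Y : Finset V} (hc : Clq G Y) : pr G Y Y + Y.card = Y.card * Y.card := by
  have h1 := Pool.Agent.O2.pr_add_ms G Y
  have h2 : ms G Y = 0 := Pool.Agent.O3.Ba_ms_zero.2 hc
  omega

theorem c4_pr_full {X Y : Finset V} (h : ∀ a ∈ X, ∀ b ∈ Y, G.Adj a b) :
    pr G X Y = X.card * Y.card := by
  unfold pr
  rw [filter_true_of_mem, card_product]
  intro p hp
  exact h _ (mem_product.1 hp).1 _ (mem_product.1 hp).2

/-- the union with a `K`-clique -/
theorem count_df {W T : Finset V} (hc : Clq G T) (hT : T.card = K) :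
    df G K (W ∪ T) = df G K W + ((K : ℤ) - (T ∩ W).card) * (2 - (T ∩ W).card) -
      2 * pr G (T \ W) (W \ T) := by
  have e1 : W ∪ T = W ∪ (T \ W) := by
    ext v; simp only [mem_union, mem_sdiff]; tauto
  have hd : Disjoint W (T \ W) := disjoint_sdiff
  have e2 : W = (W \ T) ∪ (T ∩ W) := by
    ext v; simp only [mem_union, mem_sdiff, mem_inter]; tauto
  have hd2 : Disjoint (W \ T) (T ∩ W) := by
    rw [disjoint_left]
    intro v hv hv'
    exact (mem_sdiff.1 hv).2 (mem_inter.1 hv').1
  have h1 : pr G (T \ W) W = pr G (T \ W) (W \ T) + (T \ W).card * (T ∩ W).card := by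
    conv_lhs => rw [e2]
    rw [Pool.Agent.O2.pr_union_right _ hd2, ← e2]
    congr 1
    apply c4_pr_full
    intro a ha b hb
    obtain ⟨ha1, ha2⟩ := mem_sdiff.1 ha
    obtain ⟨hb1, hb2⟩ := mem_inter.1 hb
    exact hc a ha1 b hb1 (fun h => ha2 (h ▸ hb2))
  have h2 := c4_pr_clq (G := G) (Y := T \ W) fun a ha b hb hab =>
    hc a (mem_sdiff.1 ha).1 b (mem_sdiff.1 hb).1 hab
  have h3 : (T \ W).card + (T ∩ W).card = K := by
    rw [← hT]; exact card_sdiff_add_card_inter T W
  have h4 := pr_union_self (G := G) hd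
  unfold df
  rw [e1, h4, card_union_of_disjoint hd, h1]
  have h5 : (pr G (T \ W) (T \ W) : ℤ) = (T \ W).card * (T \ W).card - (T \ W).card := by
    have : (pr G (T \ W) (T \ W) : ℤ) + (T \ W).card = (T \ W).card * (T \ W).card := by
      exact_mod_cast h2
    linarith
  have h6 : ((T \ W).card : ℤ) = K - (T ∩ W).card := by
    have : ((T \ W).card : ℤ) + (T ∩ W).card = K := by exact_mod_cast h3
    linarith
  push_cast
  rw [h5, h6]
  ring

theorem count_card {W T : Finset V} (hT : T.card = K) :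
    (W ∪ T).card + (T ∩ W).card = W.card + K := by
  have h := card_union_add_card_inter W T
  rw [inter_comm T W, h, hT]

/-- the count lemma: pair set and `K`-clique -/
theorem count_pair {β : ℕ → ℤ} {x y : V} {W T : Finset V} (hP : Pair G S K x y W)
    (hI : IH K β S.card) (hc : Clq G T) (hT : T.card = K) :
    Yy G K β (W ∪ T) ≤ (K : ℤ) + 1 + β (W.card - 2) - β (W.card + K - (T ∩ W).card - 1) +
      ((K : ℤ) - (T ∩ W).card) * (2 - (T ∩ W).card) - 2 * pr G (T \ W) (W \ T) -
      2 * (cmn G W x y).card := by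
  have h1 := hP.Y_le hI
  have h2 := count_df (W := W) hc hT
  have h3 := count_card (W := W) hT
  have e1 : (W ∪ T).card - 1 = W.card + K - (T ∩ W).card - 1 := by omega
  unfold Yy at h1 ⊢
  rw [e1, h2]
  linarith

/-- excluded: `K_(K+1)` minus an edge with a low middle vertex (5.9) -/
def NoAl (G : SimpleGraph V) (S : Finset V) (K : ℕ) : Prop :=
  ∀ x ∈ S, dg G S x = K → ∀ p ∈ S, ∀ q ∈ S, G.Adj x p → G.Adj x q → p ≠ q →
    Clq G (cn G S p x) → Clq G (cn G S q x) → False

theorem c4_mem_cn {v x a : V} : a ∈ cn G S v x ↔ a = x ∨ (a ≠ v ∧ a ∈ S ∧ G.Adj x a) := by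
  unfold cn
  rw [mem_insert, mem_erase, mem_filter]

/-- a low vertex whose closed neighbourhood without `v` is a clique, and `v` adjacent to all but
at most one vertex of it -/
theorem c4_almost (hn : K + 1 < S.card) (hS : CrOn G S K) (h59 : NoAl G S K) {x v : V}
    (hx : x ∈ S) (hl : dg G S x = K) (hv : v ∈ S) (hxv : G.Adj x v)
    (hc : Clq G (cn G S v x)) {p : V} (hp : p ∈ S) (hxp : G.Adj x p) (hpv : p ≠ v)
    (h : ∀ a ∈ cn G S v x, a ≠ p → a ≠ x → G.Adj v a) : False := by
  apply h59 x hx hl v hv p hp hxv hxp hpv.symm hc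
  intro a ha b hb hab
  rw [c4_mem_cn] at ha hb
  have key : ∀ a, (a ≠ p ∧ a ∈ S ∧ G.Adj x a) → a ≠ v → G.Adj a v := by
    intro a ha hav
    have h1 : a ∈ cn G S v x := c4_mem_cn.2 (Or.inr ⟨hav, ha.2⟩)
    exact (h a h1 ha.1 ha.2.2.ne').symm
  rcases ha with rfl | ha <;> rcases hb with rfl | hb
  · exact absurd rfl hab
  · exact hb.2.2
  · exact ha.2.2.symm
  · by_cases hav : a = v
    · subst hav
      exact (key b hb hab.symm).symm
    · by_cases hbv : b = v
      · subst hbv
        exact key a ha hab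
      · exact hc a (c4_mem_cn.2 (Or.inr ⟨hav, ha.2⟩)) b (c4_mem_cn.2 (Or.inr ⟨hbv, hb.2⟩)) hab

theorem c4_tw_dg {x c : V} (hx : x ∈ S) (hc : c ∈ S) (h : Tw G S x c) :
    dg G S c = dg G S x := by
  have hne : x ≠ c := h.1.ne
  unfold dg
  apply card_bij' (fun a _ => if a = x then c else a) (fun a _ => if a = c then x else a)
  · intro a ha
    obtain ⟨haS, hca⟩ := mem_filter.1 ha
    by_cases hax : a = x
    · simp only [hax, if_true]
      exact mem_filter.2 ⟨hc, h.1⟩
    · simp only [hax, if_false]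
      exact mem_filter.2 ⟨haS, (h.2 a haS hax hca.ne').2 hca⟩
  · intro a ha
    obtain ⟨haS, hxa⟩ := mem_filter.1 ha
    by_cases hac : a = c
    · simp only [hac, if_true]
      exact mem_filter.2 ⟨hx, h.1.symm⟩
    · simp only [hac, if_false]
      exact mem_filter.2 ⟨haS, (h.2 a haS hxa.ne' hac).1 hxa⟩
  · intro a ha
    obtain ⟨haS, hca⟩ := mem_filter.1 ha
    by_cases hax : a = x
    · simp [hax]
    · have : a ≠ c := hca.ne'
      simp [hax, this]
  · intro a ha
    obtain ⟨haS, hxa⟩ := mem_filter.1 ha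
    by_cases hac : a = c
    · simp [hac]
    · have : a ≠ x := hxa.ne'
      simp [hac, this]

theorem c4_mem_tws {x c : V} : c ∈ tws G S x ↔ c ∈ S ∧ c ≠ x ∧ Tw G S x c := by
  unfold tws
  rw [mem_filter]

/-- the twins of a low vertex `x` together with `x` -/
theorem c4_twin {x m : V} (hx : x ∈ S) (hl : dg G S x = K) (hm : m ∈ insert x (tws G S x)) :
    m ∈ S ∧ dg G S m = K ∧ (m = x ∨ G.Adj x m) ∧
      ∀ a ∈ S, a ≠ m → (a = x ∨ G.Adj x a) → G.Adj m a := by
  rcases mem_insert.1 hm with rfl | hm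
  · refine ⟨hx, hl, Or.inl rfl, ?_⟩
    intro a _ ham h
    rcases h with rfl | h
    · exact absurd rfl ham
    · exact h
  · obtain ⟨hmS, hmx, htw⟩ := c4_mem_tws.1 hm
    refine ⟨hmS, (c4_tw_dg hx hmS htw).trans hl, Or.inr htw.1, ?_⟩
    intro a ha ham h
    rcases h with rfl | h
    · exact htw.1.symm
    · by_cases hax : a = x
      · rw [hax]; exact htw.1.symm
      · exact (htw.2 a ha hax ham).1 h

theorem c4_tws_card (G : SimpleGraph V) (S : Finset V) (x : V) :
    (insert x (tws G S x)).card = (tws G S x).card + 1 := by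
  rw [card_insert_of_notMem]
  intro h
  exact (c4_mem_tws.1 h).2.1 rfl

/-- c4': a low vertex has at most `K - 3` twins -/
theorem c4' (hS : CrOn G S K) (hn : K + 1 < S.card) (h59 : NoAl G S K) {x : V} (hx : x ∈ S)
    (hl : dg G S x = K) : (tws G S x).card + 3 ≤ K := by
  by_contra hlt
  have hM := c4_tws_card G S x
  set M := insert x (tws G S x) with hMdef
  -- the closed neighbourhood
  let N : Finset V := insert x (S.filter fun a => G.Adj x a)
  have hmemN : ∀ a, a ∈ N ↔ a = x ∨ (a ∈ S ∧ G.Adj x a) := by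
    intro a
    rw [mem_insert, mem_filter]
  have hNS : N ⊆ S := by
    intro a ha
    rcases (hmemN a).1 ha with rfl | h
    · exact hx
    · exact h.1
  have hNc : N.card = K + 1 := by
    rw [card_insert_of_notMem]
    · show dg G S x + 1 = K + 1
      rw [hl]
    · intro h
      exact G.irrefl (mem_filter.1 h).2
  have hMN : M ⊆ N := by
    intro m hm
    obtain ⟨h1, -, h2, -⟩ := c4_twin hx hl hm
    rcases h2 with h2 | h2
    · exact (hmemN m).2 (Or.inl h2)
    · exact (hmemN m).2 (Or.inr ⟨h1, h2⟩)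
  have hadj : ∀ m ∈ M, ∀ a ∈ N, m ≠ a → G.Adj m a := by
    intro m hm a ha hma
    apply (c4_twin hx hl hm).2.2.2 a (hNS ha) hma.symm
    rcases (hmemN a).1 ha with h | h
    · exact Or.inl h
    · exact Or.inr h.2
  have hP : (N \ M).card ≤ 2 := by
    have := card_sdiff_add_card_eq_card hMN
    omega
  obtain ⟨p, hp, q, hq, hpq, hnpq⟩ : ∃ p ∈ N, ∃ q ∈ N, p ≠ q ∧ ¬ G.Adj p q := by
    by_contra hno
    push Not at hno
    have := Pool.Agent.O3.clq_bound hS hNS hno hn
    omega
  have hpM : p ∉ M := fun h => hnpq (hadj p h q hq hpq)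
  have hqM : q ∉ M := fun h => hnpq (hadj q h p hp hpq.symm).symm
  have hxM : x ∈ M := mem_insert_self _ _
  have hpx : p ≠ x := fun h => hpM (h ▸ hxM)
  have hqx : q ≠ x := fun h => hqM (h ▸ hxM)
  have hxp : G.Adj x p := (((hmemN p).1 hp).resolve_left hpx).2
  have hxq : G.Adj x q := (((hmemN q).1 hq).resolve_left hqx).2
  have hall : ∀ a ∈ N, a ∉ M → a = p ∨ a = q := by
    intro a ha haM
    by_contra hno
    push Not at hno
    have h1 : ({a, p, q} : Finset V) ⊆ N \ M := by
      intro b hb
      simp only [mem_insert, mem_singleton] at hb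
      rcases hb with rfl | rfl | rfl
      · exact mem_sdiff.2 ⟨ha, haM⟩
      · exact mem_sdiff.2 ⟨hp, hpM⟩
      · exact mem_sdiff.2 ⟨hq, hqM⟩
    have h2 := card_le_card h1
    rw [card_insert_of_notMem (by simp [hno.1, hno.2]), card_pair hpq] at h2
    omega
  have hcl : ∀ r s : V, (∀ a ∈ N, a ∉ M → a = r ∨ a = s) → Clq G (cn G S r x) := by
    intro r s hrs a ha b hb hab
    have h1 : ∀ a, a ∈ cn G S r x → a ∈ N ∧ (a ∈ M ∨ a ≠ r) := by
      intro a ha
      rcases c4_mem_cn.1 ha with rfl | ⟨h1, h2, h3⟩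
      · exact ⟨(hmemN _).2 (Or.inl rfl), Or.inl hxM⟩
      · exact ⟨(hmemN _).2 (Or.inr ⟨h2, h3⟩), Or.inr h1⟩
    obtain ⟨haN, ha'⟩ := h1 a ha
    obtain ⟨hbN, hb'⟩ := h1 b hb
    by_cases haM : a ∈ M
    · exact hadj a haM b hbN hab
    · by_cases hbM : b ∈ M
      · exact (hadj b hbM a haN hab.symm).symm
      · exfalso
        apply hab
        rw [(hrs a haN haM).resolve_left (ha'.resolve_left haM),
          (hrs b hbN hbM).resolve_left (hb'.resolve_left hbM)]
  exact h59 x hx hl p (hNS hp) q (hNS hq) hxp hxq hpq (hcl p q hall)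
    (hcl q p fun a ha haM => (hall a ha haM).symm)

/-- c4: if `N[x] - v` is a clique and `x` has a twin then it has at most `K - 4` twins -/
theorem c4 {β : ℕ → ℤ} (hS : CrOn G S K) (hI : IH K β S.card) (hn : K + 1 < S.card)
    (h59 : NoAl G S K) (hK : 4 ≤ K)
    (hY : ∀ R ⊆ S, R ≠ S → K + 1 ≤ R.card → 3 ≤ Yy G K β R) (hYS : 2 ≤ Yy G K β S)
    (hper : ∀ m, β (m + K) = β m + 2) (hup : ∀ m, β (m + 1) ≤ β m + K - 1)
    (hup' : ∀ m, (m + 1) % K ≠ 0 → β (m + 1) ≤ β m + K - 2) (hr : S.card % K ≠ 0)
    {x v : V} (hx : x ∈ S) (hl : dg G S x = K) (hv : v ∈ S) (hxv : G.Adj x v)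
    (hc : Clq G (cn G S v x)) : (tws G S x).card + 4 ≤ K := by
  by_contra hlt
  have hM := c4_tws_card G S x
  set M := insert x (tws G S x) with hMdef
  set T := cn G S v x with hT
  have hxv' : x ≠ v := hxv.ne
  have hTS : T ⊆ S := (cn_sub hx hxv').trans (erase_subset _ _)
  have hvT : v ∉ T := fun h => (mem_erase.1 (cn_sub hx hxv' h)).1 rfl
  have hTc : T.card = K := (cn_card hv hxv).trans hl
  have hxM : x ∈ M := mem_insert_self _ _
  -- the non-neighbours of `v` in `T`
  have hins : ∀ a ∈ T, a = x ∨ G.Adj x a := by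
    intro a ha
    rcases c4_mem_cn.1 ha with h | h
    · exact Or.inl h
    · exact Or.inr h.2.2
  have hnot : ¬ ∀ a ∈ T, G.Adj v a := by
    intro hno
    have h1 : Clq G (insert v T) := by
      intro a ha b hb hab
      rcases mem_insert.1 ha with rfl | ha <;> rcases mem_insert.1 hb with rfl | hb
      · exact absurd rfl hab
      · exact hno b hb
      · exact (hno a ha).symm
      · exact hc a ha b hb hab
    have h2 := Pool.Agent.O3.clq_bound hS (insert_subset hv hTS) h1 hn
    rw [card_insert_of_notMem hvT] at h2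
    omega
  have hvM : v ∉ M := by
    intro h
    apply hnot
    intro a ha
    apply (c4_twin hx hl h).2.2.2 a (hTS ha) (fun e => hvT (e ▸ ha)) (hins a ha)
  have hMT : M ⊆ T := by
    intro m hm
    obtain ⟨h1, -, h2, -⟩ := c4_twin hx hl hm
    rcases h2 with h2 | h2
    · exact c4_mem_cn.2 (Or.inl h2)
    · exact c4_mem_cn.2 (Or.inr ⟨fun e => hvM (e ▸ hm), h1, h2⟩)
  have hMv : ∀ m ∈ M, G.Adj m v := by
    intro m hm
    exact (c4_twin hx hl hm).2.2.2 v hv (fun e => hvM (e ▸ hm)) (Or.inr hxv)
  have hP : (T \ M).card ≤ 2 := by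
    have := card_sdiff_add_card_eq_card hMT
    omega
  push Not at hnot
  obtain ⟨a, haT, hva⟩ := hnot
  have haM : a ∉ M := fun h => hva (hMv a h).symm
  have hax : a ≠ x := fun h => haM (h ▸ hxM)
  have haS := hTS haT
  have hxa : G.Adj x a := (hins a haT).resolve_left hax
  have hav : a ≠ v := fun h => hvT (h ▸ haT)
  -- a second non-neighbour
  obtain ⟨b, hbT, hba, hvb⟩ : ∃ b ∈ T, b ≠ a ∧ ¬ G.Adj v b := by
    by_contra hno
    push Not at hno
    exact c4_almost hn hS h59 hx hl hv hxv hc haS hxa hav fun c hc' hca _ => hno c hc' hca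
  have hbM : b ∉ M := fun h => hvb (hMv b h).symm
  have hbS := hTS hbT
  have hTM : T \ M = {a, b} := by
    symm
    apply eq_of_subset_of_card_le
    · intro c hc'
      simp only [mem_insert, mem_singleton] at hc'
      rcases hc' with rfl | rfl
      · exact mem_sdiff.2 ⟨haT, haM⟩
      · exact mem_sdiff.2 ⟨hbT, hbM⟩
    · rw [card_pair hba.symm]
      exact hP
  have hMc : M.card + 2 = K := by
    have h1 := card_sdiff_add_card_eq_card hMT
    rw [hTM, card_pair hba.symm] at h1
    omega
  -- the pair set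
  obtain ⟨W, hWx, hPW⟩ := pair_low hS (by omega : 0 < K) hx hl.le hv haS hxv hxa hav.symm hva
  have hWS : W ⊆ S := hWx.trans (erase_subset _ _)
  have hMW : ∀ m ∈ M, m ∉ W := by
    intro m hm
    obtain ⟨h1, h2, -, -⟩ := c4_twin hx hl hm
    exact hPW.no_low h2.le (hMv m hm)
      (hc m (hMT hm) a haT fun e => haM (e ▸ hm))
  have hTW : ∀ c ∈ T, c ∈ W → c = a ∨ c = b := by
    intro c hcT hcW
    have h1 : c ∈ T \ M := mem_sdiff.2 ⟨hcT, fun h => hMW c h hcW⟩
    rw [hTM] at h1
    simpa using h1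
  have hcount := count_pair hPW hI hc hTc
  have hcard := count_card (W := W) hTc
  have hwge := hPW.card_ge
  have hcm : (0 : ℤ) ≤ (cmn G W v a).card := by positivity
  -- edges from `T \ W` to `W \ T`
  have hvWT : v ∈ W \ T := mem_sdiff.2 ⟨hPW.hx, hvT⟩
  have hprM : M.card ≤ pr G (T \ W) (W \ T) := by
    unfold pr
    apply card_le_card_of_injOn (fun m => (m, v))
    · intro m hm
      have hm' := mem_coe.1 hm
      rw [mem_coe, mem_filter, mem_product]
      exact ⟨⟨mem_sdiff.2 ⟨hMT hm', hMW m hm'⟩, hvWT⟩, hMv m hm'⟩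
    · intro m _ m' _ h
      exact (Prod.mk.inj h).1
  by_cases hbW : b ∈ W
  · -- `T ∩ W = {a, b}`
    have e1 : T ∩ W = {a, b} := by
      ext c
      simp only [mem_inter, mem_insert, mem_singleton]
      constructor
      · rintro ⟨h1, h2⟩
        exact hTW c h1 h2
      · rintro (rfl | rfl)
        · exact ⟨haT, hPW.hy⟩
        · exact ⟨hbT, hbW⟩
    rw [e1, card_pair hba.symm] at hcount hcard
    obtain ⟨m, hm⟩ : ∃ m, W.card = m + 3 := ⟨W.card - 3, by omega⟩
    have e2 : W.card - 2 = m + 1 := by omega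
    have e3 : W.card + K - 2 - 1 = m + K := by omega
    rw [e2, e3, hper] at hcount
    have h1 : (M.card : ℤ) ≤ pr G (T \ W) (W \ T) := by exact_mod_cast hprM
    have h2 : (M.card : ℤ) + 2 = K := by exact_mod_cast hMc
    have h3 := hup m
    by_cases hU : W ∪ T = S
    · have h4 : (m + 1) % K ≠ 0 := by
        have h5 : S.card = m + 1 + K := by
          rw [← hU]; omega
        rw [h5, Nat.add_mod_right] at hr
        exact hr
      have h5 := hup' m h4
      rw [hU] at hcount
      push_cast at hcount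
      linarith
    · have h4 := hY (W ∪ T) (union_subset hWS hTS) hU (by
        have := card_le_card (subset_union_left (s₁ := W) (s₂ := T))
        omega)
      push_cast at hcount
      linarith
  · have e1 : T ∩ W = {a} := by
      ext c
      simp only [mem_inter, mem_singleton]
      constructor
      · rintro ⟨h1, h2⟩
        rcases hTW c h1 h2 with h | h
        · exact h
        · exact absurd (h ▸ h2) hbW
      · rintro rfl
        exact ⟨haT, hPW.hy⟩
    rw [e1, card_singleton] at hcount hcard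
    obtain ⟨m, hm⟩ : ∃ m, W.card = m + 2 := ⟨W.card - 2, by omega⟩
    have e2 : W.card - 2 = m := by omega
    have e3 : W.card + K - 1 - 1 = m + K := by omega
    rw [e2, e3, hper] at hcount
    have h2 : (M.card : ℤ) + 2 = K := by exact_mod_cast hMc
    by_cases hU : W ∪ T = S
    · -- `b` has a neighbour in `W \ T`
      obtain ⟨z, hz, hbz⟩ : ∃ z ∈ W \ T, G.Adj b z := by
        by_contra hno
        push Not at hno
        have h5 : (S.filter fun y => G.Adj b y) ⊆ T.erase b := by
          intro y hy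
          obtain ⟨hyS, hby⟩ := mem_filter.1 hy
          rw [mem_erase]
          refine ⟨hby.ne', ?_⟩
          by_contra hyT
          have h6 : y ∈ W ∪ T := by rw [hU]; exact hyS
          rcases mem_union.1 h6 with h7 | h7
          · exact hno y (mem_sdiff.2 ⟨h7, hyT⟩) hby
          · exact hyT h7
        have h6 := card_le_card h5
        rw [card_erase_of_mem hbT, hTc] at h6
        have h7 := hS.dg_ge hbS
        have h8 : dg G S b = (S.filter fun y => G.Adj b y).card := rfl
        omega
      have hpr : M.card + 1 ≤ pr G (T \ W) (W \ T) := by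
        have h5 : (insert (b, z) (M.image fun m => (m, v))).card ≤
            pr G (T \ W) (W \ T) := by
          unfold pr
          apply card_le_card
          intro e he
          rw [mem_filter, mem_product]
          rcases mem_insert.1 he with rfl | he
          · exact ⟨⟨mem_sdiff.2 ⟨hbT, hbW⟩, hz⟩, hbz⟩
          · obtain ⟨m', hm', rfl⟩ := mem_image.1 he
            exact ⟨⟨mem_sdiff.2 ⟨hMT hm', hMW m' hm'⟩, hvWT⟩, hMv m' hm'⟩
        rw [card_insert_of_notMem, card_image_of_injective] at h5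
        · exact h5
        · intro m m' h
          exact (Prod.mk.inj h).1
        · intro h
          obtain ⟨m', hm', h6⟩ := mem_image.1 h
          exact hbM ((Prod.mk.inj h6).1 ▸ hm')
      have h1 : (M.card : ℤ) + 1 ≤ pr G (T \ W) (W \ T) := by exact_mod_cast hpr
      rw [hU] at hcount
      push_cast at hcount
      linarith
    · have h1 : (M.card : ℤ) ≤ pr G (T \ W) (W \ T) := by exact_mod_cast hprM
      have h4 := hY (W ∪ T) (union_subset hWS hTS) hU (by
        have := card_le_card (subset_union_left (s₁ := W) (s₂ := T))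
        omega)
      push_cast at hcount
      linarith

end Pool.Agent.OW
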