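import Pool.Agent.Lib_helper53.OW.C4

/-!
# c4 and c4' for the concrete table
-/

set_option autoImplicit false
set_option linter.unusedSectionVars false
set_option linter.unusedVariables false

open scoped Classical
open Finset
open Pool.Agent.O2 (PC Cb CrOn pr ms dg nd)
open Pool.Agent.O3 (con hit Clq)

namespace Pool.Agent.OW53

open Pool.Agent.OW

variable {V : Type} {K : ℕ} {G : SimpleGraph V} {S : Finset V}

theorem vt_le_two {p : ℕ} (hp : p ≠ 0) : vt K p ≤ 2 := by
  unfold vt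
  rw [if_neg hp]
  split_ifs <;> norm_num

theorem vt_ge (hK : 1 ≤ K) (p : ℕ) : -1 ≤ vt K p := by
  unfold vt
  split_ifs <;> first | omega | norm_num

theorem bt_per (hK : 0 < K) (m : ℕ) : bt K (m + K) = bt K m + 2 := by
  unfold bt
  rw [Nat.add_mod_right, Nat.add_div_right m hK]
  push_cast
  ring

theorem bt_up' (hK : 5 ≤ K) (m : ℕ) (h : (m + 1) % K ≠ 0) :
    bt K (m + 1) ≤ bt K m + K - 2 := by
  have h0 : m % K + 1 < K := by
    have h1 := Nat.mod_lt m (by omega : 0 < K)
    by_contra h2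
    apply h
    have h3 : m % K + 1 = K := by omega
    rw [Nat.add_mod, Nat.mod_eq_of_lt (by omega : 1 < K), h3, Nat.mod_self]
  have h1 : (m + 1) % K = m % K + 1 := by
    rw [Nat.add_mod, Nat.mod_eq_of_lt (by omega : 1 < K), Nat.mod_eq_of_lt h0]
  have h2 : (m + 1) / K = m / K := by
    have h3 := Nat.div_add_mod m K
    have h4 := Nat.div_add_mod (m + 1) K
    rw [h1] at h4
    have h5 : K * ((m + 1) / K) = K * (m / K) := by omega
    exact Nat.eq_of_mul_eq_mul_left (by omega) h5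
  have h3 := vt_le_two (K := K) (p := m % K + 1) (by omega)
  have h4 := vt_ge (K := K) (by omega) (m % K)
  have h5 : (5 : ℤ) ≤ K := by exact_mod_cast hK
  unfold bt
  rw [h1, h2]
  linarith

theorem bt_up (hK : 5 ≤ K) (m : ℕ) : bt K (m + 1) ≤ bt K m + K - 1 := by
  by_cases h : (m + 1) % K = 0
  · have h1 : m % K + 1 = K := by
      have h2 := Nat.mod_lt m (by omega : 0 < K)
      by_contra h3
      have h4 : m % K + 1 < K := by omega
      rw [Nat.add_mod, Nat.mod_eq_of_lt (by omega : 1 < K), Nat.mod_eq_of_lt h4] at h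
      omega
    have h2 : (m + 1) / K = m / K + 1 := by
      have h3 := Nat.div_add_mod m K
      have h4 := Nat.div_add_mod (m + 1) K
      rw [h] at h4
      have h5 : K * ((m + 1) / K) = K * (m / K + 1) := by
        rw [Nat.mul_add, Nat.mul_one]; omega
      exact Nat.eq_of_mul_eq_mul_left (by omega) h5
    have h3 : vt K (m % K) = 2 := by
      unfold vt
      rw [if_neg (by omega), if_pos (Or.inr h1)]
    unfold bt
    rw [h, h2, h3, vt_zero]
    push_cast
    linarith
  · have := bt_up' hK m h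
    linarith

/-- c4 in the form needed for `Lw` -/
theorem c4_bt (hK : 7 ≤ K) (h : Cex G S K (bt K)) (hn : K + 1 < S.card)
    (hY : ∀ R ⊆ S, R ≠ S → K + 1 ≤ R.card → 4 ≤ Yy G K (bt K) R)
    (c3 : ∀ x ∈ S, dg G S x = K → ∀ v ∈ S, G.Adj x v → ∀ v' ∈ S, G.Adj x v' → v ≠ v' →
      Clq G (cn G S v x) → Clq G (cn G S v' x) → False)
    (hr : (S.card - 1) % K + 3 ≤ K) :
    ∀ x ∈ S, dg G S x = K → 1 ≤ (tws G S x).card → ∀ v ∈ S, G.Adj x v →
      Clq G (cn G S v x) → (tws G S x).card + 4 ≤ K := by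
  intro x hx hl _ v hv hxv hc
  have hal : NoAl G S K := fun x hx hl p hp q hq hxp hxq hpq h1 h2 =>
    c3 x hx hl p hp hxp q hq hxq hpq h1 h2
  have hr' : S.card % K ≠ 0 := by
    intro h0
    have h1 : 1 ≤ S.card := by omega
    obtain ⟨a, ha⟩ := Nat.dvd_of_mod_eq_zero h0
    have ha1 : 1 ≤ a := by
      by_contra hcon
      have : a = 0 := by omega
      rw [this, mul_zero] at ha
      omega
    obtain ⟨b, rfl⟩ : ∃ b, a = b + 1 := ⟨a - 1, by omega⟩
    have h2 : S.card - 1 = (K - 1) + K * b := by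
      rw [ha, Nat.mul_add, Nat.mul_one]; omega
    rw [h2, Nat.add_mul_mod_self_left, Nat.mod_eq_of_lt (by omega)] at hr
    omega
  have hbig : 2 ≤ Yy G K (bt K) S := by
    have := h.big
    unfold Yy
    linarith
  exact c4 h.cr h.ih hn hal (by omega) (fun R h1 h2 h3 => by linarith [hY R h1 h2 h3]) hbig
    (bt_per (by omega)) (bt_up (by omega)) (fun m => bt_up' (by omega) m) hr' hx hl hv hxv hc

/-- c4' in the form needed for `Lw` -/
theorem c4'_bt (hS : CrOn G S K) (hn : K + 1 < S.card)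
    (c3 : ∀ x ∈ S, dg G S x = K → ∀ v ∈ S, G.Adj x v → ∀ v' ∈ S, G.Adj x v' → v ≠ v' →
      Clq G (cn G S v x) → Clq G (cn G S v' x) → False) :
    ∀ x ∈ S, dg G S x = K → (tws G S x).card + 3 ≤ K := by
  intro x hx hl
  exact c4' hS hn (fun x hx hl p hp q hq hxp hxq hpq h1 h2 =>
    c3 x hx hl p hp hxp q hq hxq hpq h1 h2) hx hl

end Pool.Agent.OW53
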