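import Pool.Agent.Lib_helper53.OW.Ext

/-!
# The extension step: structure, sizes, the case without loss, absorption of low vertices
-/

set_option autoImplicit false
set_option linter.unusedSectionVars false
set_option linter.unusedVariables false

open scoped Classical
open Finset
open Pool.Agent.O2 (PC Cb CrOn pr ms dg nd Joined)
open Pool.Agent.O3 (con hit)

namespace Pool.Agent.OW

variable {V : Type}

/-- `ψ` is a colouring of the subset `R` of the critical set `S`, and `A ⊆ S \ R` together with the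
set `Z` of colours is critical in the contraction -/
structure Step {K : ℕ} (G : SimpleGraph V) (S R : Finset V) (ψ : V → Fin K) (A : Finset V)
    (Z : Finset (Fin K)) : Prop where
  crS : CrOn G S K
  sub : R ⊆ S
  pc : PC G R ψ
  hA : A ⊆ S \ R
  neA : A.Nonempty
  neZ : Z.Nonempty
  cr : CrOn (con G R ψ) (A.disjSum Z) K

variable {K : ℕ} {G : SimpleGraph V} {S R : Finset V} {ψ : V → Fin K} {A : Finset V}
  {Z : Finset (Fin K)}

/-- 1.1 -/
theorem step_exists (hK : 0 < K) (h : CrOn G S K) (hR : R ⊆ S) (hne : R.Nonempty)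
    (hψ : PC G R ψ) : ∃ (A : Finset V) (Z : Finset (Fin K)), Step G S R ψ A Z := by
  obtain ⟨W, Z, h1, h2, h3, h4, -, -⟩ := ext_step hK h hR hne hψ
  exact ⟨W, Z, h, hR, hψ, h1, h2, h3, h4⟩

theorem Step.disj (h : Step G S R ψ A Z) : Disjoint R A := by
  rw [disjoint_left]
  intro v hv hv'
  exact (mem_sdiff.1 (h.hA hv')).2 hv

theorem Step.subA (h : Step G S R ψ A Z) : A ⊆ S := fun v hv => (mem_sdiff.1 (h.hA hv)).1

theorem Step.sub_union (h : Step G S R ψ A Z) : R ∪ A ⊆ S := union_subset h.sub h.subA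

theorem Step.card_union (h : Step G S R ψ A Z) : (R ∪ A).card = R.card + A.card :=
  card_union_of_disjoint h.disj

theorem Step.card_lt_union (h : Step G S R ψ A Z) : R.card < (R ∪ A).card := by
  rw [h.card_union]
  have := card_pos.2 h.neA
  omega

theorem Step.card_Q (h : Step G S R ψ A Z) : (A.disjSum Z).card = A.card + Z.card :=
  card_disjSum _ _

theorem Step.hits (h : Step G S R ψ A Z) {i : Fin K} (hi : i ∈ Z) :
    ∃ v ∈ A, i ∈ hit G R ψ v := hit_of_crit h.cr hi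

theorem Step.Z_pos (h : Step G S R ψ A Z) : 1 ≤ Z.card := card_pos.2 h.neZ

theorem Step.Z_le (h : Step G S R ψ A Z) : Z.card ≤ K := by simpa using card_le_univ Z

/-- `Z` consists of colours of vertices of `R` with a neighbour in `A` -/
theorem Step.Z_sub (h : Step G S R ψ A Z) :
    Z ⊆ (R.filter fun y => ∃ v ∈ A, G.Adj y v).image ψ := by
  intro i hi
  obtain ⟨v, hv, hiv⟩ := h.hits hi
  rw [hit, mem_filter] at hiv
  obtain ⟨-, y, hy, rfl, hvy⟩ := hiv
  exact mem_image_of_mem ψ (mem_filter.2 ⟨hy, v, hv, hvy.symm⟩)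

theorem Step.Z_sub_bd (h : Step G S R ψ A Z) : Z ⊆ (bd G S R).image ψ := by
  refine h.Z_sub.trans (image_subset_image ?_)
  intro y hy
  obtain ⟨h1, v, hv, hyv⟩ := mem_filter.1 hy
  exact mem_filter.2 ⟨h1, v, h.hA hv, hyv⟩

theorem Step.Z_le_R (h : Step G S R ψ A Z) : Z.card ≤ R.card :=
  (card_le_card h.Z_sub).trans (card_image_le.trans (card_filter_le _ _))

/-- 1.1 (d) -/
theorem Step.Q_lt (h : Step G S R ψ A Z) (hR : K + 1 ≤ R.card) :
    (A.disjSum Z).card < S.card := by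
  rw [h.card_Q]
  have h1 := h.Z_le
  have h2 := card_le_card h.sub_union
  rw [h.card_union] at h2
  omega

/-- also if `Z` is smaller than `R` -/
theorem Step.Q_lt' (h : Step G S R ψ A Z) (hR : Z.card < R.card) :
    (A.disjSum Z).card < S.card := by
  rw [h.card_Q]
  have h2 := card_le_card h.sub_union
  rw [h.card_union] at h2
  omega

/-- 1.2: the exact identity -/
theorem Step.df_eq (h : Step G S R ψ A Z) :
    df G K (R ∪ A) = df G K R + df (con G R ψ) K (A.disjSum Z) -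
      Z.card * ((K : ℤ) + 2 - Z.card) - 2 * gain G R ψ A Z :=
  df_ext G h.disj ψ Z

theorem Step.gain_nonneg (h : Step G S R ψ A Z) : 0 ≤ gain G R ψ A Z :=
  Pool.Agent.OW.gain_nonneg G R ψ A Z

/-- the degree of `v ∈ A` in `Q` -/
theorem dg_Q (G : SimpleGraph V) (R A : Finset V) (ψ : V → Fin K) (Z : Finset (Fin K)) (v : V) :
    dg (con G R ψ) (A.disjSum Z) (Sum.inl v) = dg G A v + (hit G R ψ v ∩ Z).card :=
  Pool.Agent.O3.dg_con_inl G R A ψ Z v

/-- all neighbours of `v` in `R` have different colours and these are in `Z` -/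
theorem rainbow_of_card {v : V} (h : dg G R v ≤ (hit G R ψ v ∩ Z).card) :
    (∀ y ∈ R, G.Adj v y → ψ y ∈ Z) ∧
      ∀ y ∈ R, ∀ y' ∈ R, G.Adj v y → G.Adj v y' → ψ y = ψ y' → y = y' := by
  have h1 : hit G R ψ v = (R.filter fun y => G.Adj v y).image ψ := by
    ext i
    simp only [hit, mem_filter, mem_univ, true_and, mem_image]
    constructor
    · rintro ⟨y, hy, rfl, hvy⟩
      exact ⟨y, ⟨hy, hvy⟩, rfl⟩
    · rintro ⟨y, ⟨hy, hvy⟩, rfl⟩
      exact ⟨y, hy, rfl, hvy⟩
  have h2 : (hit G R ψ v ∩ Z).card ≤ (hit G R ψ v).card := card_le_card inter_subset_left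
  have h3 := Pool.Agent.O3.hit_card_le G R ψ v
  have h4 : hit G R ψ v ∩ Z = hit G R ψ v :=
    eq_of_subset_of_card_le inter_subset_left (by omega)
  have h5 : (hit G R ψ v).card = dg G R v := by rw [h4] at h; omega
  constructor
  · intro y hy hvy
    have h6 : ψ y ∈ hit G R ψ v := by
      rw [h1]
      exact mem_image_of_mem ψ (mem_filter.2 ⟨hy, hvy⟩)
    rw [← h4] at h6
    exact (mem_inter.1 h6).2
  · intro y hy y' hy' hvy hvy' hyy
    have h6 : ((R.filter fun y => G.Adj v y).image ψ).card =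
        (R.filter fun y => G.Adj v y).card := by
      rw [← h1, h5]
      rfl
    exact (card_image_iff.1 h6) (mem_coe.2 (mem_filter.2 ⟨hy, hvy⟩))
      (mem_coe.2 (mem_filter.2 ⟨hy', hvy'⟩)) hyy

/-- 1.3: no loss at any vertex -/
theorem gain_zero (h : gain G R ψ A Z = 0) {v : V} (hv : v ∈ A) :
    (hit G R ψ v ∩ Z).card = dg G R v := by
  have h1 := (sum_eq_zero_iff_of_nonneg fun v _ => gain_term G R ψ Z v).1 h v hv
  have h2 : ((hit G R ψ v ∩ Z).card : ℤ) = dg G R v := by linarith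
  exact_mod_cast h2

/-- 1.3: neighbourhoods in `R` are rainbow, with colours in `Z` -/
theorem gain_zero_rainbow (h : gain G R ψ A Z = 0) {v : V} (hv : v ∈ A) :
    (∀ y ∈ R, G.Adj v y → ψ y ∈ Z) ∧
      ∀ y ∈ R, ∀ y' ∈ R, G.Adj v y → G.Adj v y' → ψ y = ψ y' → y = y' :=
  rainbow_of_card (gain_zero h hv).ge

/-- 1.3: degrees do not change -/
theorem Step.gain_zero_dg (h : Step G S R ψ A Z) (hg : gain G R ψ A Z = 0) {v : V}
    (hv : v ∈ A) :
    dg (con G R ψ) (A.disjSum Z) (Sum.inl v) = dg G (R ∪ A) v := by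
  rw [dg_Q, gain_zero hg hv, Pool.Agent.O2.dg_union h.disj]
  ring

/-- 1.3, final step -/
theorem Step.gain_zero_final (h : Step G S R ψ A Z) (hg : gain G R ψ A Z = 0)
    (hU : R ∪ A = S) : (∀ v ∈ A, dg (con G R ψ) (A.disjSum Z) (Sum.inl v) = dg G S v) ∧
      (bd G S R).image ψ = Z := by
  refine ⟨fun v hv => by rw [h.gain_zero_dg hg hv, hU], ?_⟩
  apply Subset.antisymm _ h.Z_sub_bd
  intro i hi
  obtain ⟨y, hy, rfl⟩ := mem_image.1 hi
  obtain ⟨hyR, v, hv, hyv⟩ := mem_filter.1 hy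
  have hvA : v ∈ A := by
    obtain ⟨h1, h2⟩ := mem_sdiff.1 hv
    rw [← hU] at h1
    rcases mem_union.1 h1 with h3 | h3
    · exact absurd h3 h2
    · exact h3
  exact (gain_zero_rainbow hg hvA).1 y hyR hyv.symm

/-- 1.4: absorption of low vertices -/
theorem Step.absorb (h : Step G S R ψ A Z) {u : V} (hu : u ∈ A) (hd : dg G S u ≤ K) :
    (∀ y ∈ S, G.Adj u y → y ∈ R ∪ A) ∧ (∀ y ∈ R, G.Adj u y → ψ y ∈ Z) ∧
      (∀ y ∈ R, ∀ y' ∈ R, G.Adj u y → G.Adj u y' → ψ y = ψ y' → y = y') ∧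
      dg G R u ≤ Z.card ∧ dg (con G R ψ) (A.disjSum Z) (Sum.inl u) = K := by
  have h1 := h.cr.dg_ge (inl_mem_disjSum.2 hu)
  rw [dg_Q] at h1
  have h2 : (hit G R ψ u ∩ Z).card ≤ (hit G R ψ u).card := card_le_card inter_subset_left
  have h3 := Pool.Agent.O3.hit_card_le G R ψ u
  have h4 : dg G (R ∪ A) u = dg G R u + dg G A u := Pool.Agent.O2.dg_union h.disj u
  have h5 : dg G (R ∪ A) u ≤ dg G S u := Pool.Agent.O2.dg_mono h.sub_union u
  have h6 : dg G R u ≤ (hit G R ψ u ∩ Z).card := by omega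
  obtain ⟨h7, h8⟩ := rainbow_of_card h6
  refine ⟨?_, h7, h8, h6.trans (card_le_card inter_subset_right), by rw [dg_Q]; omega⟩
  intro y hy huy
  have h9 : ((R ∪ A).filter fun y => G.Adj u y) = S.filter fun y => G.Adj u y := by
    apply eq_of_subset_of_card_le (filter_subset_filter _ h.sub_union)
    show dg G S u ≤ dg G (R ∪ A) u
    omega
  have h10 : y ∈ S.filter fun y => G.Adj u y := mem_filter.2 ⟨hy, huy⟩
  rw [← h9] at h10
  exact (mem_filter.1 h10).1

/-- 1.4, usual application -/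
theorem Step.absorb_two (h : Step G S R ψ A Z) {u x y : V} (hu : u ∈ A) (hd : dg G S u ≤ K)
    (hx : x ∈ R) (hy : y ∈ R) (hne : x ≠ y) (hux : G.Adj u x) (huy : G.Adj u y) :
    ψ x ≠ ψ y ∧ ψ x ∈ Z ∧ ψ y ∈ Z ∧ 2 ≤ Z.card := by
  obtain ⟨-, h1, h2, -, -⟩ := h.absorb hu hd
  have h3 : ψ x ≠ ψ y := fun e => hne (h2 x hx y hy hux huy e)
  have h4 := h1 x hx hux
  have h5 := h1 y hy huy
  refine ⟨h3, h4, h5, ?_⟩
  have h6 : ({ψ x, ψ y} : Finset (Fin K)) ⊆ Z := by
    intro i hi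
    rcases mem_insert.1 hi with rfl | hi
    · exact h4
    · rw [mem_singleton.1 hi]; exact h5
  have h7 := card_le_card h6
  rwa [card_pair h3] at h7

/-- the cost `c_s(m, a)` of a step: `m = |R| - 1`, `a = |A|`, `s = |Z|` -/
def cst (K : ℕ) (β : ℕ → ℤ) (s m a : ℕ) : ℤ :=
  β (m + a) - β m - β (a + s - 1) + (s : ℤ) * ((K : ℤ) + 2 - s)

/-- 1.2, cost form with the excess of `Q` -/
theorem Step.Yy_eq (h : Step G S R ψ A Z) (β : ℕ → ℤ) :
    Yy G K β (R ∪ A) = Yy G K β R + Yy (con G R ψ) K β (A.disjSum Z) -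
      cst K β Z.card (R.card - 1) A.card - 2 * gain G R ψ A Z := by
  have h1 : 0 < R.card := lt_of_lt_of_le h.Z_pos h.Z_le_R
  unfold Yy cst
  rw [h.df_eq, h.card_union, h.card_Q]
  have e1 : R.card + A.card - 1 = R.card - 1 + A.card := by omega
  rw [e1]
  ring

/-- 1.2, cost form with the induction hypothesis -/
theorem Step.Yy_le {β : ℕ → ℤ} (h : Step G S R ψ A Z) (ih : IH K β S.card)
    (hR : K + 1 ≤ R.card) :
    Yy (con G R ψ) K β (A.disjSum Z) ≤ 0 ∧
    Yy G K β (R ∪ A) + cst K β Z.card (R.card - 1) A.card + 2 * gain G R ψ A Z ≤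
      Yy G K β R := by
  have h1 : Yy (con G R ψ) K β (A.disjSum Z) ≤ 0 := by
    have h2 := ih _ (con G R ψ) (A.disjSum Z) h.cr (h.Q_lt hR)
    unfold Yy
    linarith
  refine ⟨h1, ?_⟩
  rw [h.Yy_eq β]
  linarith

/-- the same without the loss -/
theorem Step.Yy_le' {β : ℕ → ℤ} (h : Step G S R ψ A Z) (ih : IH K β S.card)
    (hR : K + 1 ≤ R.card) :
    Yy G K β (R ∪ A) + cst K β Z.card (R.card - 1) A.card ≤ Yy G K β R := by
  have h1 := (h.Yy_le ih hR).2
  have h2 := h.gain_nonneg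
  linarith

/-- a step that ends with `S`: the number `a` of new vertices is `|S| - |R|` -/
theorem Step.final_card (h : Step G S R ψ A Z) (hU : R ∪ A = S) :
    A = S \ R ∧ A.card + R.card = S.card := by
  refine ⟨?_, ?_⟩
  · apply Subset.antisymm h.hA
    intro v hv
    obtain ⟨h1, h2⟩ := mem_sdiff.1 hv
    rw [← hU] at h1
    rcases mem_union.1 h1 with h3 | h3
    · exact absurd h3 h2
    · exact h3
  · rw [← hU, h.card_union]
    ring

end Pool.Agent.OW
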