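import Pool.Agent.Lib_helper53.OW.C4
import Pool.Agent.Lib_helper92.OW.Lp

/-!
MP_5ababd, k = 6, block B4 (helper53): the twin bound for low vertices with a clique, for every
table `β`, and the number of low vertices in a `K`-clique.
-/

set_option autoImplicit false
set_option linter.unusedSectionVars false
set_option linter.unusedVariables false

open scoped Classical
open Finset
open Pool.Agent.O2 (PC Cb CrOn pr ms dg nd reN pr_sum pr_symm pr_union_left pr_union_right dg_mono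
  dg_union)
open Pool.Agent.O3 (con hit Clq)
open Pool.Agent.OW28 (NoCE Add1)
open Pool.Agent.OW

namespace Pool.Agent.OW53

variable {V : Type} {K : ℕ} {G : SimpleGraph V} {S : Finset V}

theorem noAl_of_ce (h : CrOn G S K) (hce : NoCE G S K) : NoAl G S K :=
  fun x hx hl p hp q hq hxp hxq hpq h1 h2 =>
    not_two_clq h hce hx hl hp hq hpq hxp hxq h1 h2

theorem card_mod_ne {n : ℕ} (hK : 2 ≤ K) (hn : 1 ≤ n) (hr : (n - 1) % K + 2 ≤ K) :
    n % K ≠ 0 := by
  intro h0
  obtain ⟨a, ha⟩ := Nat.dvd_of_mod_eq_zero h0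
  have ha1 : 1 ≤ a := by
    by_contra hcon
    have : a = 0 := by omega
    rw [this, mul_zero] at ha
    omega
  obtain ⟨b, rfl⟩ : ∃ b, a = b + 1 := ⟨a - 1, by omega⟩
  have h2 : n - 1 = (K - 1) + K * b := by
    rw [ha, Nat.mul_add, Nat.mul_one]; omega
  rw [h2, Nat.add_mul_mod_self_left, Nat.mod_eq_of_lt (by omega)] at hr
  omega

/-- c4 for an arbitrary table: a low vertex with a clique has at most `K - 4` twins. -/
theorem c4_gen {β : ℕ → ℤ} (hK : 4 ≤ K) (hS : CrOn G S K) (hI : IH K β S.card)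
    (hn : K + 1 < S.card) (hce : NoCE G S K)
    (hY : ∀ R ⊆ S, R ≠ S → K + 1 ≤ R.card → 3 ≤ Yy G K β R) (hYS : 2 ≤ Yy G K β S)
    (hper : ∀ m, β (m + K) = β m + 2) (hup : ∀ m, β (m + 1) ≤ β m + K - 1)
    (hup' : ∀ m, (m + 1) % K ≠ 0 → β (m + 1) ≤ β m + K - 2) (hr : (S.card - 1) % K + 2 ≤ K) :
    ∀ x ∈ S, dg G S x = K → ∀ v ∈ S, G.Adj x v →
      Clq G (cn G S v x) → (tws G S x).card + 4 ≤ K := by
  intro x hx hl v hv hxv hc
  exact c4 hS hI hn (noAl_of_ce hS hce) hK hY hYS hper hup hup'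
    (card_mod_ne (by omega) (by omega) hr) hx hl hv hxv hc

/-- the number of low vertices in a `K`-clique -/
theorem clique_low {β : ℕ → ℤ} (hK : 4 ≤ K) (hS : CrOn G S K) (hI : IH K β S.card)
    (hn : K + 1 < S.card) (ha : Add1 G S K) (hce : NoCE G S K)
    (hY : ∀ R ⊆ S, R ≠ S → K + 1 ≤ R.card → 3 ≤ Yy G K β R) (hYS : 2 ≤ Yy G K β S)
    (hper : ∀ m, β (m + K) = β m + 2) (hup : ∀ m, β (m + 1) ≤ β m + K - 1)
    (hup' : ∀ m, (m + 1) % K ≠ 0 → β (m + 1) ≤ β m + K - 2) (hr : (S.card - 1) % K + 2 ≤ K)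
    {T : Finset V} (hT : T ⊆ S) (hq : Clq G T) (hk : T.card = K) :
    (T.filter fun t => dg G S t = K).card + 3 ≤ K := by
  rcases (T.filter fun t => dg G S t = K).eq_empty_or_nonempty with h0 | ⟨x, hxm⟩
  · rw [h0, card_empty]; omega
  obtain ⟨hxT, hxd⟩ := mem_filter.1 hxm
  have hx := hT hxT
  obtain ⟨v, hvS, hxv, hout⟩ := Pool.Agent.OW28.out_one hT hq hk (by omega) hxT hxd
  have hv : v ∈ S := (mem_sdiff.1 hvS).1
  have hvT : v ∉ T := (mem_sdiff.1 hvS).2
  have hcn : cn G S v x = T := by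
    apply Subset.antisymm
    · intro a ha'
      rcases mem_cn.1 ha' with rfl | h'
      · exact hxT
      · by_contra hcon
        exact h'.1 (hout a h'.2.1 h'.2.2 hcon)
    · intro a ha'
      refine mem_cn.2 ?_
      by_cases hax : a = x
      · exact Or.inl hax
      · exact Or.inr ⟨fun e => hvT (e ▸ ha'), hT ha', hq x hxT a ha' (Ne.symm hax)⟩
  have hc : Clq G (cn G S v x) := by rw [hcn]; exact hq
  have h4 := c4_gen hK hS hI hn hce hY hYS hper hup hup' hr x hx hxd v hv hxv hc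
  have hsub : (T.filter fun t => dg G S t = K) ⊆ insert x (tws G S x) := by
    intro t ht
    obtain ⟨htT, htd⟩ := mem_filter.1 ht
    rw [mem_insert]
    by_cases htx : t = x
    · exact Or.inl htx
    · right
      have hadj : G.Adj x t := hq x hxT t htT (Ne.symm htx)
      have htv : t ≠ v := fun e => hvT (e ▸ htT)
      exact c4_mem_tws.2 ⟨hT htT, htx,
        twin_of_low (by omega) hS ha hx hxd hv hxv hc (hT htT) hadj htv htd⟩
  have h5 := card_le_card hsub
  rw [c4_tws_card] at h5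
  omega

end Pool.Agent.OW53
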