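import Pool.Agent.Lib_helper33.Ore.UpperAsymp

/-!
# A critical graph on `2 K + 2` vertices

`A` is a clique on `K - 1` vertices, three independent vertices are joined to all of `A`, and a
clique `B` on `K` vertices is split into three nonempty parts which are joined to one of the three
independent vertices each.
-/

set_option autoImplicit false
set_option linter.unusedSectionVars false

open scoped Classical
open Finset

namespace Pool.Agent.Ore

/-- the three parts of `B` -/
def part3 {m : ℕ} (i : Fin (m + 1)) : Fin 3 :=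
  if i.val = 0 then 0 else if i.val = 1 then 1 else 2

/-- adjacency -/
def d3Adj (m : ℕ) : (Fin m ⊕ Fin 3) ⊕ Fin (m + 1) → (Fin m ⊕ Fin 3) ⊕ Fin (m + 1) → Prop
  | .inl (.inl a), .inl (.inl a') => a ≠ a'
  | .inl (.inl _), .inl (.inr _) => True
  | .inl (.inr _), .inl (.inl _) => True
  | .inl (.inr _), .inl (.inr _) => False
  | .inl (.inl _), .inr _ => False
  | .inr _, .inl (.inl _) => False
  | .inl (.inr t), .inr i => part3 i = t
  | .inr i, .inl (.inr t) => part3 i = t
  | .inr i, .inr j => i ≠ j

/-- the graph -/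
def d3 (m : ℕ) : SimpleGraph ((Fin m ⊕ Fin 3) ⊕ Fin (m + 1)) where
  Adj := d3Adj m
  symm := by
    constructor
    rintro ((a | t) | i) ((a' | t') | j) h
    · exact Ne.symm h
    · trivial
    · exact h
    · trivial
    · exact h
    · exact h
    · exact h
    · exact h
    · exact Ne.symm h
  loopless := by
    constructor
    rintro ((a | t) | i) h
    · exact h rfl
    · exact h
    · exact h rfl

theorem part3_surj {m : ℕ} (hm : 2 ≤ m) (t : Fin 3) : ∃ i : Fin (m + 1), part3 i = t := by
  fin_cases t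
  · exact ⟨⟨0, by omega⟩, by simp [part3]⟩
  · exact ⟨⟨1, by omega⟩, by simp [part3]⟩
  · exact ⟨⟨2, by omega⟩, by simp [part3]⟩

theorem d3_not_colorable (m : ℕ) : ¬ (d3 m).Colorable (m + 1) := by
  rintro ⟨C⟩
  -- the three independent vertices have the same colour
  have hT : ∀ t t' : Fin 3, C (.inl (.inr t)) = C (.inl (.inr t')) := by
    intro t t'
    let φ : Option (Fin m) → Fin (m + 1) := fun o => match o with
      | none => C (.inl (.inr t))
      | some a => C (.inl (.inl a))
    have hinj : Function.Injective φ := by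
      rintro (_ | a) (_ | b) h
      · rfl
      · exact absurd h (C.valid (show (d3 m).Adj (.inl (.inr t)) (.inl (.inl b)) from trivial))
      · exact absurd h (C.valid (show (d3 m).Adj (.inl (.inl a)) (.inl (.inr t)) from trivial))
      · by_contra hne
        have hab : a ≠ b := fun h' => hne (by rw [h'])
        exact C.valid (show (d3 m).Adj (.inl (.inl a)) (.inl (.inl b)) from hab) h
    have hbij : Function.Bijective φ := by
      rw [Fintype.bijective_iff_injective_and_card]
      exact ⟨hinj, by simp⟩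
    obtain ⟨o, ho⟩ := hbij.2 (C (.inl (.inr t')))
    cases o with
    | none => exact ho
    | some a =>
      exact absurd ho (C.valid (show (d3 m).Adj (.inl (.inl a)) (.inl (.inr t')) from trivial))
  have hinj : Function.Injective fun i : Fin (m + 1) => C (.inr i) := by
    intro i j h
    by_contra hne
    exact C.valid (show (d3 m).Adj (.inr i) (.inr j) from hne) h
  obtain ⟨i, hi⟩ := (Finite.injective_iff_surjective.1 hinj) (C (.inl (.inr 0)))
  exact C.valid (show (d3 m).Adj (.inl (.inr (part3 i))) (.inr i) from rfl)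
    ((hT _ 0).trans hi.symm)

/-- colourings of the graph without a vertex -/
theorem d3_colOff {m : ℕ} (hm : 2 ≤ m) (x : (Fin m ⊕ Fin 3) ⊕ Fin (m + 1)) :
    ColOff (d3 m) (m + 1) x := by
  rcases x with (x | x) | x
  · -- delete a vertex of `A`
    let z : Fin (m + 1) := 0
    let o : Fin (m + 1) := ⟨1, by omega⟩
    have hzo : z ≠ o := by
      intro h
      have := congrArg Fin.val h
      simp [z, o] at this
    have hzx : z ≠ x.succ := (Fin.succ_ne_zero x).symm
    let σ : Equiv.Perm (Fin (m + 1)) := (Equiv.swap z o).trans (Equiv.swap o x.succ)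
    have h0 : σ z = x.succ := by simp [σ]
    have h1 : σ o = z := by
      simp only [σ, Equiv.trans_apply, Equiv.swap_apply_right]
      exact Equiv.swap_apply_of_ne_of_ne hzo hzx
    let cT : Fin 3 → Fin (m + 1) := fun t => if t = 0 then 0 else x.succ
    refine ⟨Sum.elim (Sum.elim Fin.succ cT) σ, ?_⟩
    have hAT : ∀ (a : Fin m) (t : Fin 3), a ≠ x → a.succ ≠ cT t := by
      intro a t ha
      by_cases ht : t = 0
      · simp only [cT, ht, if_true]
        exact Fin.succ_ne_zero a
      · simp only [cT, ht, if_false]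
        exact fun h => ha (Fin.succ_injective _ h)
    have hTB : ∀ (t : Fin 3) (i : Fin (m + 1)), part3 i = t → cT t ≠ σ i := by
      intro t i h
      subst h
      by_cases hi0 : i.val = 0
      · have hiz : i = z := Fin.ext hi0
        rw [hiz, h0]
        have : cT (part3 z) = 0 := by simp [cT, part3, z]
        rw [this]
        exact hzx
      · have hp : part3 i ≠ 0 := by
          unfold part3
          rw [if_neg hi0]
          split_ifs <;> decide
        have : cT (part3 i) = x.succ := by simp [cT, hp]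
        rw [this, ← h0]
        intro h
        have := σ.injective h
        apply hi0
        rw [← this]
        rfl
    rintro ((a | t) | i) ((b | t') | j) ha hb hab
    · exact fun h => hab (Fin.succ_injective _ h)
    · exact hAT a t' (fun h => ha (by rw [h]))
    · exact absurd hab id
    · exact (hAT b t (fun h => hb (by rw [h]))).symm
    · exact absurd hab id
    · exact hTB t j hab
    · exact absurd hab id
    · exact (hTB t' i hab).symm
    · exact fun h => hab (σ.injective h)
  · -- delete one of the three vertices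
    obtain ⟨i0, hi0⟩ := part3_surj hm x
    let σ : Equiv.Perm (Fin (m + 1)) := Equiv.swap 0 i0
    have h0 : σ i0 = 0 := by simp [σ]
    refine ⟨Sum.elim (Sum.elim Fin.succ fun _ => 0) σ, ?_⟩
    have hTB : ∀ (t : Fin 3) (i : Fin (m + 1)), t ≠ x → part3 i = t → 0 ≠ σ i := by
      intro t i ht h hh
      rw [← h0] at hh
      apply ht
      rw [← h, ← σ.injective hh, hi0]
    rintro ((a | t) | i) ((b | t') | j) ha hb hab
    · exact fun h => hab (Fin.succ_injective _ h)
    · exact Fin.succ_ne_zero a
    · exact absurd hab id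
    · exact (Fin.succ_ne_zero b).symm
    · exact absurd hab id
    · exact hTB t j (fun h => ha (by rw [h])) hab
    · exact absurd hab id
    · exact (hTB t' i (fun h => hb (by rw [h])) hab).symm
    · exact fun h => hab (σ.injective h)
  · -- delete a vertex of `B`
    let σ : Equiv.Perm (Fin (m + 1)) := Equiv.swap 0 x
    have h0 : σ x = 0 := by simp [σ]
    refine ⟨Sum.elim (Sum.elim Fin.succ fun _ => 0) σ, ?_⟩
    have hTB : ∀ (i : Fin (m + 1)), i ≠ x → 0 ≠ σ i := by
      intro i hi hh
      rw [← h0] at hh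
      exact hi (σ.injective hh).symm
    rintro ((a | t) | i) ((b | t') | j) ha hb hab
    · exact fun h => hab (Fin.succ_injective _ h)
    · exact Fin.succ_ne_zero a
    · exact absurd hab id
    · exact (Fin.succ_ne_zero b).symm
    · exact absurd hab id
    · exact hTB j (fun h => hb (by rw [h]))
    · exact absurd hab id
    · exact (hTB i (fun h => ha (by rw [h]))).symm
    · exact fun h => hab (σ.injective h)

theorem d3_colMinus (m : ℕ) : ColMinus (d3 m) (m + 1) (.inl (.inr 0)) (.inr 0) := by
  refine ⟨Sum.elim (Sum.elim Fin.succ fun _ => 0) id, ?_⟩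
  have hp : part3 (0 : Fin (m + 1)) = 0 := by simp [part3]
  rintro ((a | t) | i) ((b | t') | j) hab h
  · exact absurd (Fin.succ_injective _ h) hab
  · exact absurd h (Fin.succ_ne_zero a)
  · exact absurd hab id
  · exact absurd h.symm (Fin.succ_ne_zero b)
  · exact absurd hab id
  · left
    have h1 : (0 : Fin (m + 1)) = j := h
    have h2 : part3 j = t := hab
    subst h1
    rw [hp] at h2
    subst h2
    exact ⟨rfl, rfl⟩
  · exact absurd hab id
  · right
    have h1 : i = (0 : Fin (m + 1)) := h
    have h2 : part3 i = t' := hab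
    subst h1
    rw [hp] at h2
    subst h2
    exact ⟨rfl, rfl⟩
  · exact absurd h hab

theorem sum_clique (m : ℕ) : ∑ i : Fin m, ∑ j : Fin m, (if i ≠ j then 1 else 0 : ℕ) =
    m * (m - 1) := by
  have : ∀ i : Fin m, ∑ j : Fin m, (if i ≠ j then 1 else 0 : ℕ) = m - 1 := by
    intro i
    rw [← card_filter, filter_ne, card_erase_of_mem (mem_univ _)]
    simp
  simp_rw [this]
  simp

theorem d3_pr (m : ℕ) : pr (d3 m) univ univ = 2 * m * m + 8 * m + 2 := by
  rw [pr_eq_sum]
  rw [Fintype.sum_sum_type, Fintype.sum_sum_type]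
  simp_rw [Fintype.sum_sum_type]
  have a1 : ∀ a b : Fin m, (if (d3 m).Adj (.inl (.inl a)) (.inl (.inl b)) then 1 else 0 : ℕ) =
      if a ≠ b then 1 else 0 := fun a b => if_congr Iff.rfl rfl rfl
  have a2 : ∀ (a : Fin m) (t : Fin 3),
      (if (d3 m).Adj (.inl (.inl a)) (.inl (.inr t)) then 1 else 0 : ℕ) = 1 := by
    intro a t
    rw [if_pos]
    trivial
  have a3 : ∀ (a : Fin m) (t : Fin 3),
      (if (d3 m).Adj (.inl (.inr t)) (.inl (.inl a)) then 1 else 0 : ℕ) = 1 := by
    intro a t
    rw [if_pos]
    trivial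
  have a4 : ∀ (t t' : Fin 3),
      (if (d3 m).Adj (.inl (.inr t)) (.inl (.inr t')) then 1 else 0 : ℕ) = 0 := by
    intro t t'
    rw [if_neg]
    exact id
  have a5 : ∀ (a : Fin m) (i : Fin (m + 1)),
      (if (d3 m).Adj (.inl (.inl a)) (.inr i) then 1 else 0 : ℕ) = 0 := by
    intro a i
    rw [if_neg]
    exact id
  have a6 : ∀ (a : Fin m) (i : Fin (m + 1)),
      (if (d3 m).Adj (.inr i) (.inl (.inl a)) then 1 else 0 : ℕ) = 0 := by
    intro a i
    rw [if_neg]
    exact id
  have a7 : ∀ (t : Fin 3) (i : Fin (m + 1)),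
      (if (d3 m).Adj (.inl (.inr t)) (.inr i) then 1 else 0 : ℕ) =
      if part3 i = t then 1 else 0 := fun t i => if_congr Iff.rfl rfl rfl
  have a8 : ∀ (t : Fin 3) (i : Fin (m + 1)),
      (if (d3 m).Adj (.inr i) (.inl (.inr t)) then 1 else 0 : ℕ) =
      if part3 i = t then 1 else 0 := fun t i => if_congr Iff.rfl rfl rfl
  have a9 : ∀ i j : Fin (m + 1), (if (d3 m).Adj (.inr i) (.inr j) then 1 else 0 : ℕ) =
      if i ≠ j then 1 else 0 := fun i j => if_congr Iff.rfl rfl rfl
  simp_rw [a1, a2, a3, a4, a5, a6, a7, a8, a9, sum_add_distrib]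
  rw [sum_clique, sum_clique]
  have b1 : ∑ t : Fin 3, ∑ i : Fin (m + 1), (if part3 i = t then 1 else 0 : ℕ) = m + 1 := by
    rw [sum_comm]
    have : ∀ i : Fin (m + 1), ∑ t : Fin 3, (if part3 i = t then 1 else 0 : ℕ) = 1 := by
      intro i; simp
    simp_rw [this]
    simp
  have b2 : ∑ i : Fin (m + 1), ∑ t : Fin 3, (if part3 i = t then 1 else 0 : ℕ) = m + 1 := by
    rw [sum_comm]; exact b1
  rw [b1, b2]
  simp only [sum_const, card_univ, Fintype.card_fin, smul_eq_mul, mul_one, mul_zero, add_zero,
    zero_add]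
  have b3 : m * (m - 1) + m = m * m := by
    cases m with
    | zero => rfl
    | succ m => simp only [Nat.add_sub_cancel]; ring
  have b4 : (m + 1) * (m + 1 - 1) = m * m + m := by
    simp only [Nat.add_sub_cancel]; ring
  rw [b4]
  nlinarith

theorem good_d3 {m : ℕ} (hm : 2 ≤ m) : Good (m + 1) (2 * (m + 1) + 2) (2 * m * m + 8 * m + 2) := by
  refine ⟨(Fin m ⊕ Fin 3) ⊕ Fin (m + 1), inferInstance, d3 m, .inl (.inr 0), .inr 0, ?_,
    d3_pr m, ⟨d3_not_colorable m, d3_colOff hm⟩, ?_, d3_colMinus m⟩
  · simp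
    omega
  · show part3 (0 : Fin (m + 1)) = 0
    simp [part3]

/-- compositions of the graph `d3` with complete graphs -/
theorem good_family_one {K : ℕ} (hK : 3 ≤ K) (q : ℕ) (hq : 2 ≤ q) :
    ∃ e : ℕ, Good K (K * q + 2) e ∧
      (e : ℤ) = ((K : ℤ) + 1) * (K * q + 2) - 2 * q - 2 := by
  obtain ⟨m, rfl⟩ : ∃ m, K = m + 1 := ⟨K - 1, by omega⟩
  obtain ⟨j, rfl⟩ := Nat.exists_eq_add_of_le hq
  obtain ⟨e, h1, h2⟩ := iter_haj (by omega) (good_d3 (m := m) (by omega)) j
  refine ⟨e, ?_, ?_⟩
  · have e1 : (m + 1) * (2 + j) + 2 = 2 * (m + 1) + 2 + j * (m + 1) := by ring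
    rw [e1]
    exact h1
  · rw [h2]
    push_cast
    ring

/-- Ore's graphs on a multiple of `K` vertices -/
theorem good_family_zero {K : ℕ} (hK : 3 ≤ K) (q : ℕ) (hq : 1 ≤ q) :
    ∃ e : ℕ, Good K (K * q + K) e ∧
      (e : ℤ) = ((K : ℤ) + 1) * (K * q + K) - 2 * q - 2 := by
  obtain ⟨p, rfl⟩ : ∃ p, K = p + 1 := ⟨K - 1, by omega⟩
  obtain ⟨j, rfl⟩ := Nat.exists_eq_add_of_le hq
  obtain ⟨e, h1, h2⟩ := good_family p 1 j (by omega)
  refine ⟨e, ?_, ?_⟩
  · have e1 : (p + 1) * (1 + j) + (p + 1) = 2 * p + 1 + 1 + j * (p + 1) := by ring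
    rw [e1]
    exact h1
  · rw [h2]
    push_cast
    ring

end Pool.Agent.Ore
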