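import Pool.Agent.Lib_helper92.O3.B.Ca
import Pool.Agent.Lib_helper92.OW.Defs

/-!
# The extension step with its exact cost

A critical set of the contraction of `R` extends `R`.
-/

set_option autoImplicit false
set_option linter.unusedSectionVars false
set_option linter.unusedVariables false

open scoped Classical
open Finset
open Pool.Agent.O2 (PC Cb CrOn pr ms dg nd Joined)
open Pool.Agent.O3 (con hit)

namespace Pool.Agent.OW

variable {V : Type}

/-- edges lost in the contraction -/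
noncomputable def gain {K : ℕ} (G : SimpleGraph V) (R : Finset V) (ψ : V → Fin K) (W : Finset V)
    (Z : Finset (Fin K)) : ℤ := ∑ v ∈ W, ((dg G R v : ℤ) - (hit G R ψ v ∩ Z).card)

theorem gain_term {K : ℕ} (G : SimpleGraph V) (R : Finset V) (ψ : V → Fin K)
    (Z : Finset (Fin K)) (v : V) : 0 ≤ (dg G R v : ℤ) - (hit G R ψ v ∩ Z).card := by
  have h1 := Pool.Agent.O3.hit_card_le G R ψ v
  have h2 : (hit G R ψ v ∩ Z).card ≤ (hit G R ψ v).card := card_le_card inter_subset_left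
  have h3 : (hit G R ψ v ∩ Z).card ≤ dg G R v := h2.trans h1
  have h4 : ((hit G R ψ v ∩ Z).card : ℤ) ≤ dg G R v := by exact_mod_cast h3
  linarith

theorem gain_nonneg {K : ℕ} (G : SimpleGraph V) (R : Finset V) (ψ : V → Fin K) (W : Finset V)
    (Z : Finset (Fin K)) : 0 ≤ gain G R ψ W Z :=
  sum_nonneg fun v _ => gain_term G R ψ Z v

theorem pr_union_self {G : SimpleGraph V} {X Y : Finset V} (h : Disjoint X Y) :
    pr G (X ∪ Y) (X ∪ Y) = pr G X X + pr G Y Y + 2 * pr G Y X := by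
  rw [Pool.Agent.O2.pr_union_left _ h, Pool.Agent.O2.pr_union_right _ h,
    Pool.Agent.O2.pr_union_right _ h, Pool.Agent.O2.pr_symm G X Y]
  ring

theorem pr_con {K : ℕ} (G : SimpleGraph V) (R W : Finset V) (ψ : V → Fin K)
    (Z : Finset (Fin K)) :
    pr (con G R ψ) (W.disjSum Z) (W.disjSum Z) =
      pr G W W + 2 * ∑ v ∈ W, (hit G R ψ v ∩ Z).card + Z.card * (Z.card - 1) := by
  have h1 : pr (con G R ψ) (W.disjSum Z) (W.disjSum Z) =
      ∑ v ∈ W, dg (con G R ψ) (W.disjSum Z) (Sum.inl v) +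
        ∑ i ∈ Z, dg (con G R ψ) (W.disjSum Z) (Sum.inr i) := by
    rw [Pool.Agent.O2.pr_sum, sum_disjSum]
  have h2 : ∑ v ∈ W, dg (con G R ψ) (W.disjSum Z) (Sum.inl v) =
      pr G W W + ∑ v ∈ W, (hit G R ψ v ∩ Z).card := by
    rw [Pool.Agent.O2.pr_sum, ← sum_add_distrib]
    exact sum_congr rfl fun v _ => Pool.Agent.O3.dg_con_inl G R W ψ Z v
  have h3 : ∑ i ∈ Z, dg (con G R ψ) (W.disjSum Z) (Sum.inr i) =
      ∑ v ∈ W, (hit G R ψ v ∩ Z).card + Z.card * (Z.card - 1) := by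
    rw [sum_congr rfl fun i hi => Pool.Agent.O3.dg_con_inr G R W ψ Z hi, sum_add_distrib,
      sum_const, smul_eq_mul]
    congr 1
    have h4 : ∀ i ∈ Z, (W.filter fun v => i ∈ hit G R ψ v).card =
        ∑ v ∈ W, if i ∈ hit G R ψ v then 1 else 0 := by
      intro i _
      rw [card_filter]
    rw [sum_congr rfl h4, sum_comm]
    refine sum_congr rfl fun v _ => ?_
    rw [← card_filter, filter_mem_eq_inter, inter_comm]
  rw [h1, h2, h3]
  ring

/-- the exact cost of an extension -/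
theorem df_ext {K : ℕ} (G : SimpleGraph V) {R W : Finset V} (h : Disjoint R W) (ψ : V → Fin K)
    (Z : Finset (Fin K)) :
    df G K (R ∪ W) = df G K R + df (con G R ψ) K (W.disjSum Z) -
      Z.card * ((K : ℤ) + 2 - Z.card) - 2 * gain G R ψ W Z := by
  unfold df gain
  rw [pr_union_self h, pr_con, card_union_of_disjoint h, card_disjSum,
    Pool.Agent.O2.pr_sum G W R, sum_sub_distrib]
  have h1 : ((Z.card * (Z.card - 1) : ℕ) : ℤ) = (Z.card : ℤ) * ((Z.card : ℤ) - 1) := by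
    rcases Nat.eq_zero_or_pos Z.card with h0 | h0
    · rw [h0]; simp
    · rw [Nat.cast_mul, Nat.cast_sub h0]; simp
  push_cast at h1 ⊢
  rw [h1]
  ring

/-- every critical set of the contraction hits each of its classes -/
theorem hit_of_crit {K : ℕ} {G : SimpleGraph V} {R W : Finset V} {ψ : V → Fin K}
    {Z : Finset (Fin K)} (h : CrOn (con G R ψ) (W.disjSum Z) K) {i : Fin K} (hi : i ∈ Z) :
    ∃ v ∈ W, i ∈ hit G R ψ v := by
  have h1 := h.dg_ge (inr_mem_disjSum.2 hi)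
  rw [Pool.Agent.O3.dg_con_inr G R W ψ Z hi] at h1
  have h2 : Z.card ≤ K := by simpa using card_le_univ Z
  have h3 : 0 < Z.card := card_pos.2 ⟨i, hi⟩
  have h4 : 0 < (W.filter fun v => i ∈ hit G R ψ v).card := by omega
  obtain ⟨v, hv⟩ := card_pos.1 h4
  exact ⟨v, (mem_filter.1 hv).1, (mem_filter.1 hv).2⟩

/-- the boundary of `R` in `S`: its vertices with a neighbour in `S \ R` -/
noncomputable def bd (G : SimpleGraph V) (S R : Finset V) : Finset V :=
  R.filter fun y => ∃ v ∈ S \ R, G.Adj y v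

theorem cb_con_inl {K k : ℕ} {G : SimpleGraph V} {R W : Finset V} {ψ : V → Fin K}
    (h : Cb G W k) : Cb (con G R ψ) (W.disjSum ∅) k := by
  obtain ⟨φ, h1, h2⟩ := h
  refine ⟨Sum.elim φ fun _ => 0, ?_, ?_⟩
  · rintro (v | i) hv
    · exact h1 v (inl_mem_disjSum.1 hv)
    · exact absurd (inr_mem_disjSum.1 hv) (notMem_empty i)
  · rintro (a | i) ha (b | j) hb hab
    · exact h2 a (inl_mem_disjSum.1 ha) b (inl_mem_disjSum.1 hb) hab
    · exact absurd (inr_mem_disjSum.1 hb) (notMem_empty j)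
    · exact absurd (inr_mem_disjSum.1 ha) (notMem_empty i)
    · exact absurd (inr_mem_disjSum.1 hb) (notMem_empty j)

/-- a finset of a sum type is a disjoint sum -/
theorem eq_disjSum {α β : Type} (T : Finset (α ⊕ β)) : ∃ (W : Finset α) (Z : Finset β),
    T = W.disjSum Z := by
  refine ⟨T.toLeft, T.toRight, ?_⟩
  exact (toLeft_disjSum_toRight (u := T)).symm

/-- the extension step: `ψ` is a colouring of the proper subset `R` of the critical set `S` -/
theorem ext_step {K : ℕ} {G : SimpleGraph V} {S R : Finset V} {ψ : V → Fin K} (hK : 0 < K)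
    (h : CrOn G S K) (hR : R ⊆ S) (hne : R.Nonempty) (hψ : PC G R ψ) :
    ∃ (W : Finset V) (Z : Finset (Fin K)), W ⊆ S \ R ∧ W.Nonempty ∧ Z.Nonempty ∧
      CrOn (con G R ψ) (W.disjSum Z) K ∧ (∀ i ∈ Z, ∃ v ∈ W, i ∈ hit G R ψ v) ∧
      Z ⊆ (bd G S R).image ψ := by
  have h0 : S \ (S \ R) = R := Finset.sdiff_sdiff_eq_self hR
  have h1 : ¬ Cb (con G R ψ) ((S \ R).disjSum univ) K := by
    have h2 := Pool.Agent.O3.con_not_cb (W := S \ R) (ψ := ψ) hK h.1 sdiff_subset
      (by rw [h0]; exact hψ)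
    rwa [h0] at h2
  obtain ⟨T, hT, hcr⟩ := Pool.Agent.O2.exists_crOn h1
  obtain ⟨W, Z, rfl⟩ := eq_disjSum T
  have hW : W ⊆ S \ R := by
    intro v hv
    exact inl_mem_disjSum.1 (hT (inl_mem_disjSum.2 hv))
  have hWn : W.Nonempty := by
    rw [nonempty_iff_ne_empty]
    rintro rfl
    have h3 := hcr.card_ge
    rw [card_disjSum, card_empty, zero_add] at h3
    have h4 : Z.card ≤ K := by simpa using card_le_univ Z
    omega
  have hZn : Z.Nonempty := by
    rw [nonempty_iff_ne_empty]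
    rintro rfl
    apply hcr.1
    apply cb_con_inl
    apply h.sub (hW.trans sdiff_subset)
    rintro rfl
    obtain ⟨y, hy⟩ := hne
    exact (mem_sdiff.1 (hW (hR hy))).2 hy
  have hhit : ∀ i ∈ Z, ∃ v ∈ W, i ∈ hit G R ψ v := fun i hi => hit_of_crit hcr hi
  refine ⟨W, Z, hW, hWn, hZn, hcr, hhit, ?_⟩
  intro i hi
  obtain ⟨v, hv, hiv⟩ := hhit i hi
  rw [hit, mem_filter] at hiv
  obtain ⟨-, y, hy, rfl, hvy⟩ := hiv
  exact mem_image_of_mem ψ (mem_filter.2 ⟨hy, v, hW hv, hvy.symm⟩)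

end Pool.Agent.OW
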