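import Pool.Agent.Lib_helper33.Ore.Final
import Pool.Agent.Lib_helper46.O2.L1
import Pool.Agent.Lib_helper53.OW.D3
import Pool.Agent.Lib_helper92.OW.Defs

/-!
# From the lower bounds for critical sets to the values of `f_k(n)`

`Low K` collects the lower bounds for the number of edges of critical sets with `K q + 2` and with
`K q + K` vertices.
-/

set_option autoImplicit false
set_option linter.unusedSectionVars false
set_option linter.unusedVariables false

open scoped Classical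
open Finset
open Pool.Agent.O2 (CrOn pr)
open Pool.Agent.Ore (Crit IsCritical fmin)

namespace Pool.Agent.OW

/-- the lower bounds for critical sets on `K q + 2` and `K q + K` vertices -/
def Low (K : ℕ) : Prop :=
  ∀ (V : Type) (G : SimpleGraph V) (S : Finset V) (q : ℕ), CrOn G S K →
    (S.card = K * q + 2 ∨ S.card = K * q + K) →
    ((K : ℤ) + 1) * S.card - pr G S S ≤ 2 * q + 2

/-- the claim for the concrete table gives the two lower bounds -/
theorem low_of_claim {K : ℕ} (hK : 3 ≤ K)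
    (h : ∀ (V : Type) (G : SimpleGraph V) (S : Finset V), CrOn G S K →
      df G K S ≤ bt K (S.card - 1)) : Low K := by
  intro V G S q hS hc
  have h1 := h V G S hS
  unfold df at h1
  refine h1.trans ?_
  rcases hc with hc | hc
  · have e1 : S.card - 1 = 1 + K * q := by omega
    have e2 : (1 + K * q) / K = q := by
      rw [Nat.add_mul_div_left _ _ (by omega), Nat.div_eq_of_lt (by omega), zero_add]
    have e3 : (1 + K * q) % K = 1 := by
      rw [Nat.add_mul_mod_self_left, Nat.mod_eq_of_lt (by omega)]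
    rw [e1, bt, e2, e3]
    have e4 : vt K 1 = 2 := by simp [vt]
    rw [e4]
  · have e1 : S.card - 1 = (K - 1) + K * q := by omega
    have e2 : ((K - 1) + K * q) / K = q := by
      rw [Nat.add_mul_div_left _ _ (by omega), Nat.div_eq_of_lt (by omega), zero_add]
    have e3 : ((K - 1) + K * q) % K = K - 1 := by
      rw [Nat.add_mul_mod_self_left, Nat.mod_eq_of_lt (by omega)]
    rw [e1, bt, e2, e3]
    have e4 : vt K (K - 1) = 2 := by
      rw [vt, if_neg (by omega), if_pos (Or.inr (by omega))]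
    rw [e4]

theorem crOn_of_crit {V : Type} [Fintype V] {G : SimpleGraph V} {K : ℕ} (hK : 0 < K)
    (h : Crit G K) : CrOn G univ K := by
  refine ⟨?_, ?_⟩
  · intro h1
    obtain ⟨φ, hφ⟩ := (Pool.Agent.O2.cb_fin hK).1 h1
    exact h.1 ⟨SimpleGraph.Coloring.mk φ fun {a b} hab => hφ a (mem_univ _) b (mem_univ _) hab⟩
  · intro x _
    obtain ⟨φ, hφ⟩ := h.2 x
    exact Pool.Agent.O2.cb_of_pc (φ := φ) fun a ha b hb hab =>
      hφ a b (mem_erase.1 ha).1 (mem_erase.1 hb).1 hab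

/-- a family of graphs and a matching lower bound determine `f` -/
theorem value {K n : ℕ} {e : ℤ} (hK : 1 ≤ K) (hn : 1 ≤ n)
    (hup : ∃ e' : ℕ, Pool.Agent.Ore.Good K n e' ∧ (e' : ℤ) = e)
    (hlow : ∀ G : SimpleGraph (Fin n), CrOn G univ K → e ≤ pr G univ univ) :
    (∃ G : SimpleGraph (Fin n), IsCritical (K + 1) G) ∧ 2 * (fmin (K + 1) n : ℤ) = e := by
  have hne : Nonempty (Fin n) := ⟨⟨0, by omega⟩⟩
  obtain ⟨e', ⟨V, hV, G0, v, w, hcard, hpr, hcrit, -, -⟩, he⟩ := hup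
  obtain ⟨G, hG, hGp⟩ := Pool.Agent.Ore.transport G0 hcard hcrit
  have hGc : IsCritical (K + 1) G := (Pool.Agent.Ore.isCritical_iff G hK).2 hG
  refine ⟨⟨G, hGc⟩, ?_⟩
  have hmem : fmin (K + 1) n ∈ {e : ℕ | ∃ G : SimpleGraph (Fin n),
      IsCritical (K + 1) G ∧ G.edgeSet.ncard = e} := Nat.sInf_mem ⟨_, G, hGc, rfl⟩
  obtain ⟨G1, hG1, hG1e⟩ := hmem
  have h1 := hlow G1 (crOn_of_crit hK ((Pool.Agent.Ore.isCritical_iff G1 hK).1 hG1))
  have h2 : pr G1 univ univ = 2 * G1.edgeSet.ncard := Pool.Agent.Ore.pr_eq_two_mul G1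
  have h3 : fmin (K + 1) n ≤ G.edgeSet.ncard := Nat.sInf_le ⟨G, hGc, rfl⟩
  have h4 := Pool.Agent.Ore.pr_eq_two_mul G
  have h5 : 2 * fmin (K + 1) n ≤ e' := by omega
  have h6 : (2 * fmin (K + 1) n : ℤ) ≤ e' := by exact_mod_cast h5
  rw [h2, hG1e] at h1
  push_cast at h1
  linarith

theorem value_two {K : ℕ} (hK : 3 ≤ K) (hL : Low K) (q : ℕ) (hq : 2 ≤ q) :
    (∃ G : SimpleGraph (Fin (K * q + 2)), IsCritical (K + 1) G) ∧
      2 * (fmin (K + 1) (K * q + 2) : ℤ) = ((K : ℤ) + 1) * (K * q + 2) - 2 * q - 2 := by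
  apply value (by omega) (by omega) (Pool.Agent.Ore.good_family_one hK q hq)
  intro G hG
  have h := hL (Fin (K * q + 2)) G univ q hG (Or.inl (by simp))
  rw [card_univ, Fintype.card_fin] at h
  push_cast at h
  linarith

theorem value_zero {K : ℕ} (hK : 3 ≤ K) (hL : Low K) (q : ℕ) (hq : 1 ≤ q) :
    (∃ G : SimpleGraph (Fin (K * q + K)), IsCritical (K + 1) G) ∧
      2 * (fmin (K + 1) (K * q + K) : ℤ) = ((K : ℤ) + 1) * (K * q + K) - 2 * q - 2 := by
  apply value (by omega) (by omega) (Pool.Agent.Ore.good_family_zero hK q hq)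
  intro G hG
  have h := hL (Fin (K * q + K)) G univ q hG (Or.inr (by simp))
  rw [card_univ, Fintype.card_fin] at h
  push_cast at h
  linarith

/-- the statement of the hand-in, from the lower bounds -/
theorem final {k m : ℕ} (hk : 4 ≤ k) (hL : Low (k - 1)) (hm : 2 ≤ m) :
    ((∃ G : SimpleGraph (Fin (m * (k - 1))), IsCritical k G) ∧
      2 * (fmin k (m * (k - 1)) : ℤ) = m * (((k : ℤ) - 2) * (k + 1))) ∧
    ((∃ G : SimpleGraph (Fin (m * (k - 1) + 2)), IsCritical k G) ∧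
      2 * (fmin k (m * (k - 1) + 2) : ℤ) =
        m * (((k : ℤ) - 2) * (k + 1)) + 2 * ((k : ℤ) - 1)) ∧
    (2 * (fmin k ((m + 1) * (k - 1)) : ℤ) =
        2 * (fmin k (m * (k - 1)) : ℤ) + ((k : ℤ) - 2) * (k + 1)) ∧
    (2 * (fmin k ((m + 1) * (k - 1) + 2) : ℤ) =
        2 * (fmin k (m * (k - 1) + 2) : ℤ) + ((k : ℤ) - 2) * (k + 1)) := by
  obtain ⟨K, rfl⟩ : ∃ K, k = K + 1 := ⟨k - 1, by omega⟩
  have e0 : K + 1 - 1 = K := by omega
  rw [e0] at hL ⊢
  have hK : 3 ≤ K := by omega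
  have hz : ∀ m : ℕ, 2 ≤ m → (∃ G : SimpleGraph (Fin (m * K)), IsCritical (K + 1) G) ∧
      2 * (fmin (K + 1) (m * K) : ℤ) = m * ((((K + 1 : ℕ) : ℤ) - 2) * (((K + 1 : ℕ) : ℤ) + 1)) := by
    intro m hm
    obtain ⟨q, rfl⟩ : ∃ q, m = q + 1 := ⟨m - 1, by omega⟩
    have e1 : (q + 1) * K = K * q + K := by ring
    rw [e1]
    obtain ⟨h1, h2⟩ := value_zero hK hL q (by omega)
    refine ⟨h1, ?_⟩
    rw [h2]
    push_cast
    ring
  have ht : ∀ m : ℕ, 2 ≤ m → (∃ G : SimpleGraph (Fin (m * K + 2)), IsCritical (K + 1) G) ∧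
      2 * (fmin (K + 1) (m * K + 2) : ℤ) =
        m * ((((K + 1 : ℕ) : ℤ) - 2) * (((K + 1 : ℕ) : ℤ) + 1)) +
          2 * (((K + 1 : ℕ) : ℤ) - 1) := by
    intro m hm
    have e1 : m * K + 2 = K * m + 2 := by ring
    rw [e1]
    obtain ⟨h1, h2⟩ := value_two hK hL m hm
    refine ⟨h1, ?_⟩
    rw [h2]
    push_cast
    ring
  refine ⟨hz m hm, ht m hm, ?_, ?_⟩
  · rw [(hz m hm).2, (hz (m + 1) (by omega)).2]
    push_cast
    ring
  · rw [(ht m hm).2, (ht (m + 1) (by omega)).2]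
    push_cast
    ring

/-- the lower bound for all `n`, from the claim -/
theorem lower_all {K : ℕ} (hK : 1 ≤ K)
    (h : ∀ (V : Type) (G : SimpleGraph V) (S : Finset V), CrOn G S K →
      df G K S ≤ bt K (S.card - 1)) {n : ℕ}
    (hex : ∃ G : SimpleGraph (Fin n), IsCritical (K + 1) G) :
    ((K : ℤ) + 1) * n - bt K (n - 1) ≤ 2 * (fmin (K + 1) n : ℤ) := by
  obtain ⟨G0, hG0⟩ := hex
  have hne : Nonempty (Fin n) := by
    by_contra hempty
    rw [not_nonempty_iff] at hempty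
    have h3 : G0.Colorable 0 := ⟨SimpleGraph.Coloring.mk (fun v => (hempty.false v).elim)
      (fun {v} => (hempty.false v).elim)⟩
    have h4 := SimpleGraph.chromaticNumber_le_iff_colorable.2 h3
    rw [hG0.1] at h4
    have : K + 1 ≤ 0 := by exact_mod_cast h4
    omega
  have hmem : fmin (K + 1) n ∈ {e : ℕ | ∃ G : SimpleGraph (Fin n),
      IsCritical (K + 1) G ∧ G.edgeSet.ncard = e} := Nat.sInf_mem ⟨_, G0, hG0, rfl⟩
  obtain ⟨G1, hG1, hG1e⟩ := hmem
  have h1 := h (Fin n) G1 univ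
    (crOn_of_crit hK ((Pool.Agent.Ore.isCritical_iff G1 hK).1 hG1))
  have h2 : pr G1 univ univ = 2 * G1.edgeSet.ncard := Pool.Agent.Ore.pr_eq_two_mul G1
  unfold df at h1
  rw [h2, hG1e, card_univ, Fintype.card_fin] at h1
  push_cast at h1
  linarith

/-- the constants of the lower bound, in terms of `k` -/
def vk (k r : ℕ) : ℤ :=
  if r = 0 then (k : ℤ) - 2
  else if r = 1 ∨ r + 2 = k then 2
  else if k % 2 = 0 then (if r + 3 = k then 2 else 0)
  else if r % 2 = 1 then 0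
  else if r + 5 = k then -1
  else 1

theorem vk_eq (K r : ℕ) : vk (K + 1) r = vt K r := by
  unfold vk vt
  by_cases h0 : r = 0
  · rw [if_pos h0, if_pos h0]
    push_cast
    ring
  · rw [if_neg h0, if_neg h0]
    by_cases h1 : r = 1 ∨ r + 1 = K
    · rw [if_pos (by omega), if_pos h1]
    · rw [if_neg (by omega), if_neg h1]
      by_cases h2 : K % 2 = 1
      · rw [if_pos (by omega), if_pos h2]
        by_cases h3 : r + 2 = K
        · rw [if_pos (by omega), if_pos h3]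
        · rw [if_neg (by omega), if_neg h3]
      · rw [if_neg (by omega), if_neg h2]
        by_cases h3 : r % 2 = 1
        · rw [if_pos h3, if_pos h3]
        · rw [if_neg h3, if_neg h3]
          by_cases h4 : r + 4 = K
          · rw [if_pos (by omega), if_pos h4]
          · rw [if_neg (by omega), if_neg h4]

/-- everything, from the claim for `K = k - 1` -/
theorem final_all {k : ℕ} (hk : 4 ≤ k)
    (h : ∀ (V : Type) (G : SimpleGraph V) (S : Finset V), CrOn G S (k - 1) →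
      df G (k - 1) S ≤ bt (k - 1) (S.card - 1)) :
    (∀ m : ℕ, 2 ≤ m →
      ((∃ G : SimpleGraph (Fin (m * (k - 1))), IsCritical k G) ∧
        2 * (fmin k (m * (k - 1)) : ℤ) = m * (((k : ℤ) - 2) * (k + 1))) ∧
      ((∃ G : SimpleGraph (Fin (m * (k - 1) + 2)), IsCritical k G) ∧
        2 * (fmin k (m * (k - 1) + 2) : ℤ) =
          m * (((k : ℤ) - 2) * (k + 1)) + 2 * ((k : ℤ) - 1)) ∧
      (2 * (fmin k ((m + 1) * (k - 1)) : ℤ) =
          2 * (fmin k (m * (k - 1)) : ℤ) + ((k : ℤ) - 2) * (k + 1)) ∧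
      (2 * (fmin k ((m + 1) * (k - 1) + 2) : ℤ) =
          2 * (fmin k (m * (k - 1) + 2) : ℤ) + ((k : ℤ) - 2) * (k + 1))) ∧
    (∀ n : ℕ, (∃ G : SimpleGraph (Fin n), IsCritical k G) →
      (k : ℤ) * n - 2 * ((n - 1) / (k - 1) : ℕ) - vk k ((n - 1) % (k - 1)) ≤
        2 * (fmin k n : ℤ)) := by
  refine ⟨fun m hm => final hk (low_of_claim (by omega) h) hm, fun n hn => ?_⟩
  obtain ⟨K, rfl⟩ : ∃ K, k = K + 1 := ⟨k - 1, by omega⟩
  have e0 : K + 1 - 1 = K := by omega
  rw [e0] at h ⊢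
  have h1 := lower_all (by omega : 1 ≤ K) h hn
  rw [vk_eq]
  unfold bt at h1
  push_cast at h1 ⊢
  linarith

end Pool.Agent.OW
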